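import Pool.Agent.Helper59.PG.Rel
import Pool.Agent.Helper32.NP.ZX
import Pool.Agent.Helper51.GP.F2
import Pool.Agent.Helper51.GP.G1

/-!
# GP-G3: relevance of the disorder
-/

set_option autoImplicit false

namespace Pool.Agent.Helper33.GP

open MeasureTheory ProbabilityTheory Filter Pool.Agent.Helper79.GR Pool.Agent.Helper79.GQ
open Pool.Agent.Helper51.NP Pool.Agent.Helper51.GP
open Pool.Agent.Helper59.PG (abs_h_le nr_le_h_tr tube_prob pow_lt_two_pow last_line)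

variable {Ω : Type*} [MeasurableSpace Ω] {P : Measure Ω} {d : ℕ} {X : ℕ → Edge d → Ω → ℝ}
  {ν : ℕ → Measure ℝ} {δ : ℕ → ℝ} {a K s : ℝ} {m C : ℕ} {u : F d → ℝ} {v : F d}
  {h : F d →L[ℝ] ℝ}

/-- the upper constant of a norm is positive -/
theorem Nrm_pos (hd : 1 ≤ d) (hN : Nrm a K u) : 0 < K := by
  have h1 := hN.lo (Pi.single ⟨0, hd⟩ 1)
  have h2 := hN.hi (Pi.single ⟨0, hd⟩ 1)
  have h3 : nr (Pi.single (⟨0, hd⟩ : Fin d) (1 : ℝ) : F d) = 1 := by
    unfold nr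
    rw [Finset.sum_eq_single (⟨0, hd⟩ : Fin d)]
    · simp
    · intro j _ hj
      simp [hj]
    · intro hj
      exact absurd (Finset.mem_univ _) hj
  rw [h3, mul_one] at h1 h2
  have := hN.apos
  linarith

theorem relevance (hd : 1 ≤ d) (hF : Fam P X ν δ a m K u) (hv : h v = 1) (hC : 1 ≤ C) :
    ∃ L₀ : ℕ, ∀ L : ℕ, L₀ ≤ L → ∀ (l D E : ℝ) (g : F d →L[ℝ] ℝ),
      Pack P X u v h C L (bb m L) l D E g → E / 2 ≤ D := by
  have hK : 0 < K := Nrm_pos hd hF.nrm
  obtain ⟨K₁, hK₁, L₁, htm⟩ := tube_moments hF hv hC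
  obtain ⟨c, b₁, hc, hb₁, hgb⟩ := gibbs hF
  obtain ⟨K₂, hK₂, hct⟩ := card_tub hd v h hv
  have hK1r : (1 : ℝ) ≤ K₁ := by exact_mod_cast hK₁
  have hK10 : (0 : ℝ) < K₁ := by linarith
  have hK₂0 : 0 < K₂ := by linarith
  set H := ‖h‖ + 1 with hH
  have hH0 : 0 < H := by have := norm_nonneg h; linarith
  set V := nr v with hV
  have hV0 : 0 ≤ V := Finset.sum_nonneg fun i _ => abs_nonneg _
  have ha0 : 0 < a := hF.nrm.apos
  have hr0 : 0 < hr a := by
    unfold hr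
    positivity
  set C₇ : ℝ := 4 + K₁ with hC₇
  have hC₇0 : 0 < C₇ := by positivity
  set C₈ : ℝ := 2 * C₇ + K₁ with hC₈
  have hC₈0 : 0 < C₈ := by positivity
  set C₁₀ := √(8 * hr a * C₈ * (2 * V + 1)) with hC₁₀
  have hC₁₀0 : 0 ≤ C₁₀ := Real.sqrt_nonneg _
  set K₃ := K₂ * K₁ + 2 * V + 1 with hK₃
  have hK₃0 : 0 < K₃ := by positivity
  set A₀ := 4 * H ^ 2 * K₃ / c * (C₇ + K₁ + C₁₀) with hA₀
  have hA₀0 : 0 ≤ A₀ := by positivity
  set J := K₁ * d + (4 + K₁) with hJ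
  obtain ⟨L₂, hL₂⟩ := pow_lt_two_pow (8 * A₀ ^ 2) ((m + 1) * (J * 2))
  obtain ⟨L₃, hL₃⟩ := pow_lt_two_pow (8 * H * C₇ / K) (m + 1)
  obtain ⟨L₄, hL₄⟩ := pow_lt_two_pow (128 * H * hr a * C₈ / K ^ 2) ((m + 1) * 4)
  obtain ⟨L₅, hL₅⟩ := pow_lt_two_pow (4 * H / c) 0
  obtain ⟨L₆, hL₆⟩ := pow_lt_two_pow (4 * H) 0
  refine ⟨L₁ + L₂ + L₃ + L₄ + L₅ + L₆ + b₁ + 1, ?_⟩
  intro L hL l D E g hp
  by_contra hlt
  push Not at hlt
  have hLn : 1 ≤ L := by omega
  have hL1 : (1 : ℝ) ≤ L := by exact_mod_cast hLn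
  have hL0 : (0 : ℝ) < L := by linarith
  have hbL : L ≤ bb m L := by
    unfold bb
    exact Nat.le_self_pow (by omega) L
  have hbn : 1 ≤ bb m L := hLn.trans hbL
  have hb1b : b₁ ≤ bb m L := le_trans (by omega) hbL
  have hE := hF.env (bb m L) hbn
  have hR := hF.reg (bb m L) hbn
  have hprob := hE.prob
  set b : ℝ := ((bb m L : ℕ) : ℝ) with hb
  have hbpow : b = (L : ℝ) ^ (m + 1) := by
    rw [hb]
    unfold bb
    push_cast
    rfl
  have hb1 : (1 : ℝ) ≤ b := by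
    rw [hb]
    exact_mod_cast hbn
  have hb0 : (0 : ℝ) < b := by linarith
  have hl0 := hp.lpos
  have hu : (2 : ℝ) ^ L ≤ 1 / l := by
    rw [le_div_iff₀ hl0]
    have h4 : (2 : ℝ) ^ L * (1 / 2) ^ L = 1 := by
      rw [← mul_pow]
      norm_num
    calc (2 : ℝ) ^ L * l ≤ 2 ^ L * (1 / 2) ^ L :=
          mul_le_mul_of_nonneg_left hp.lup (by positivity)
      _ = 1 := h4
  have hlhalf : l ≤ 1 / 2 := by
    refine hp.lup.trans ?_
    calc (1 / 2 : ℝ) ^ L ≤ (1 / 2) ^ 1 :=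
          pow_le_pow_of_le_one (by norm_num) (by norm_num) (by omega)
      _ = 1 / 2 := pow_one _
  have hl1 : l ≤ 1 := by linarith
  have hu1 : 1 ≤ 1 / l := by
    rw [le_div_iff₀ hl0]
    linarith
  have hDE := hp.DE
  have hE2 : E < 2 * l ^ (2 * d + 2) := by linarith
  have hE0 : 0 < E := by
    have := hp.D0
    have : 0 < l ^ (2 * d + 2) := by positivity
    linarith
  have hE1 : E ≤ 1 := by
    have h1 : l ^ (2 * d + 2) ≤ l ^ 1 := pow_le_pow_of_le_one hl0.le hl1 (by omega)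
    rw [pow_one] at h1
    linarith
  set M := 1 / (l * E) with hM
  have hlE : 0 < l * E := by positivity
  have hM0 : 0 < M := by positivity
  have hMlow : 1 / (2 * l ^ (2 * d + 3)) ≤ M := by
    rw [hM]
    refine one_div_le_one_div_of_le hlE ?_
    calc l * E ≤ l * (2 * l ^ (2 * d + 2)) := mul_le_mul_of_nonneg_left hE2.le hl0.le
      _ = 2 * l ^ (2 * d + 3) := by ring
  have hM3 : (1 / l) ^ 3 / 2 ≤ M := by
    refine le_trans ?_ hMlow
    have h1 : l ^ (2 * d + 3) ≤ l ^ 3 := pow_le_pow_of_le_one hl0.le hl1 (by omega)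
    have h2 : (1 / l) ^ 3 / 2 = 1 / (2 * l ^ 3) := by
      field_simp
    rw [h2]
    refine one_div_le_one_div_of_le (by positivity) ?_
    linarith
  have hMl : 1 / l ≤ M := by
    rw [hM]
    refine one_div_le_one_div_of_le hlE ?_
    calc l * E ≤ l * 1 := mul_le_mul_of_nonneg_left hE1 hl0.le
      _ = l := mul_one _
  have hM1 : 1 ≤ M := hu1.trans hMl
  obtain ⟨q, hq1, hq2, hq3, hq4, hq5, hq6⟩ := htm L (by omega) l D E g hp 1 le_rfl hL1
  have hq1' : M / 2 ≤ h (rv q) := by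
    refine le_trans (le_of_eq ?_) hq1
    rw [hM]
    field_simp
  have hq2' : h (rv q) ≤ 2 * M := by
    refine hq2.trans (le_of_eq ?_)
    rw [hM]
    ring
  have hKM : (K₁ : ℝ) * 1 / (l * E) = K₁ * M := by
    rw [hM]
    ring
  rw [hKM] at hq4
  set B₁ : ℝ := b ^ K₁ with hB₁
  have hB₁1 : 1 ≤ B₁ := one_le_pow₀ hb1
  have hB₁0 : 0 < B₁ := by linarith
  set W := B₁ / l with hW
  set S₀ := tub v h W (K₁ * M) with hS₀
  have hSf₀ : S₀.Finite := finite_tub v h _ _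
  obtain ⟨S, hSf, hSS, hncard, hncard'⟩ := Pool.Agent.Helper32.NP.enlarge S₀ hSf₀ q
  set N := n1 q with hN
  have hN0 : 0 ≤ N := n1_nonneg q
  set gq := g (rv q) with hgq
  -- the size of `q`
  have hNlow : M / (2 * H) ≤ N := by
    have h1 : h (rv q) ≤ H * N := by
      calc h (rv q) ≤ |h (rv q)| := le_abs_self _
        _ ≤ ‖h‖ * nr (rv q) := abs_h_le h _
        _ = ‖h‖ * N := by rw [nr_rv]
        _ ≤ H * N := mul_le_mul_of_nonneg_right (by linarith) hN0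
    rw [div_le_iff₀ (by positivity)]
    have h2 : M ≤ 2 * (H * N) := by linarith
    calc M ≤ 2 * (H * N) := h2
      _ = N * (2 * H) := by ring
  have hNup : N ≤ (2 * V + 1) * B₁ * M := by
    have h1 := nr_le_h_tr v h (rv q)
    rw [nr_rv] at h1
    have h2 : 0 ≤ h (rv q) := le_trans (by positivity) hq1'
    rw [abs_of_nonneg h2] at h1
    have h3 : h (rv q) * V ≤ 2 * M * V := mul_le_mul_of_nonneg_right hq2' hV0
    have h4 : W ≤ B₁ * M := by
      rw [hW, div_eq_mul_one_div]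
      exact mul_le_mul_of_nonneg_left hMl hB₁0.le
    have h6 : 2 * M * V ≤ 2 * V * B₁ * M := by
      have h7 : 0 ≤ 2 * M * V := by positivity
      calc 2 * M * V = 2 * M * V * 1 := (mul_one _).symm
        _ ≤ 2 * M * V * B₁ := mul_le_mul_of_nonneg_left hB₁1 h7
        _ = 2 * V * B₁ * M := by ring
    have h8 : (2 * V + 1) * B₁ * M = 2 * V * B₁ * M + B₁ * M := by ring
    rw [h8]
    linarith
  -- Paley - Zygmund
  set m₁ := 1 / (2 * B₁) with hm₁
  have hm₁0 : 0 < m₁ := by positivity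
  have hZc1 : m₁ ≤ Zc P (X (bb m L)) S₀ b l 0 q * Real.exp (l * gq) := by
    have h1 : 1 ≤ Real.exp (1 * D / E) :=
      Real.one_le_exp (div_nonneg (by linarith [hp.D0]) hE0.le)
    have h2 : 1 / 2 ≤ B₁ *
        (Zc P (X (bb m L)) S₀ b l 0 q * Real.exp (l * gq)) := by linarith
    rw [hm₁, div_le_iff₀ (by positivity)]
    calc (1 : ℝ) = 2 * (1 / 2) := by norm_num
      _ ≤ 2 * (B₁ * (Zc P (X (bb m L)) S₀ b l 0 q * Real.exp (l * gq))) :=
          mul_le_mul_of_nonneg_left h2 (by norm_num)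
      _ = _ := by ring
  have hprob1 := tube_prob hE le_rfl S₀ q hl0 hm₁0 (Real.exp_pos ((K₁ : ℝ) * 1)) hZc1 hq6
  set p := m₁ ^ 2 / (4 * Real.exp ((K₁ : ℝ) * 1)) with hp'
  have hp0 : 0 < p := by positivity
  have hmc0 := mc_le_of_prob hE hR hb1 le_rfl S₀ 0 q _ p hp0 hprob1
  rw [sub_zero] at hmc0
  have hmc1 : mc P (X (bb m L)) S b 0 q ≤ _ :=
    (Pool.Agent.Helper32.NP.mc_anti hE le_rfl hSS 0 q).trans hmc0
  have hlogb : Real.log b ≤ b := (Real.log_le_sub_one_of_pos hb0).trans (by linarith)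
  have hlog1 : Real.log (2 / m₁) ≤ C₇ * b := by
    have h1 : 2 / m₁ = 4 * b ^ K₁ := by
      rw [hm₁]
      field_simp
      ring
    rw [h1, Real.log_mul (by norm_num) (by positivity), Real.log_pow]
    have h2 : Real.log 4 ≤ 4 := (Real.log_le_sub_one_of_pos (by norm_num)).trans
      (by norm_num)
    have h4 : (K₁ : ℝ) * Real.log b ≤ K₁ * b := mul_le_mul_of_nonneg_left hlogb hK10.le
    have h5 : (4 : ℝ) ≤ 4 * b := le_mul_of_one_le_right (by norm_num) hb1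
    have h6 : C₇ * b = 4 * b + K₁ * b := by
      rw [hC₇]
      ring
    rw [h6]
    linarith
  have hlog2 : Real.log (1 / p) ≤ C₈ * b := by
    have h1 : 1 / p = (2 / m₁) ^ 2 * Real.exp K₁ := by
      rw [hp', mul_one]
      field_simp
      ring
    rw [h1, Real.log_mul (by positivity) (by positivity), Real.log_pow, Real.log_exp]
    push_cast
    have h5 : (K₁ : ℝ) ≤ K₁ * b := le_mul_of_one_le_right (by positivity) hb1
    have h6 : C₈ * b = 2 * (C₇ * b) + K₁ * b := by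
      rw [hC₈]
      ring
    rw [h6]
    linarith
  -- the mean is at most `2 K N`
  have hN3 : (1 / l) ^ 3 / (4 * H) ≤ N := by
    refine le_trans ?_ hNlow
    have h1 := div_le_div_of_nonneg_right hM3 (by positivity : 0 ≤ 2 * H)
    refine le_trans (le_of_eq ?_) h1
    field_simp
    ring
  have hN2 : 2 ^ L * (1 / l) / (4 * H) ≤ N := by
    refine le_trans ?_ hN3
    refine div_le_div_of_nonneg_right ?_ (by positivity)
    have h1 : (2 : ℝ) ^ L * (1 / l) ≤ (1 / l) * (1 / l) :=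
      mul_le_mul_of_nonneg_right hu (by positivity)
    have h2 : (1 / l) * (1 / l) ≤ (1 / l) ^ 3 := by
      have h3 : (1 / l) ^ 3 = (1 / l) * (1 / l) * (1 / l) := by ring
      rw [h3]
      exact le_mul_of_one_le_right (by positivity) hu1
    exact h1.trans h2
  have hN1 : 2 ^ L / (4 * H) ≤ N := by
    refine le_trans ?_ hN2
    refine div_le_div_of_nonneg_right ?_ (by positivity)
    exact le_mul_of_one_le_right (by positivity) hu1
  have hNone : 1 ≤ N := by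
    refine le_trans ?_ hN1
    have h1 := hL₆ L (by omega)
    rw [pow_zero, mul_one] at h1
    rw [le_div_iff₀ (by positivity), one_mul]
    exact h1.le
  have hsq1 : √(4 * hr a * b ^ 3 * (N + 1) * Real.log (1 / p)) ≤
      √(8 * hr a * C₈ * b ^ 4 * N) := by
    refine Real.sqrt_le_sqrt ?_
    have h1 : 0 ≤ 4 * hr a * b ^ 3 * (N + 1) := by positivity
    calc 4 * hr a * b ^ 3 * (N + 1) * Real.log (1 / p)
        ≤ 4 * hr a * b ^ 3 * (N + 1) * (C₈ * b) := mul_le_mul_of_nonneg_left hlog2 h1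
      _ = 4 * hr a * C₈ * b ^ 4 * (N + 1) := by ring
      _ ≤ 4 * hr a * C₈ * b ^ 4 * (2 * N) :=
          mul_le_mul_of_nonneg_left (by linarith) (by positivity)
      _ = 8 * hr a * C₈ * b ^ 4 * N := by ring
  have hmc2 : mc P (X (bb m L)) S b 0 q ≤
      gq + C₇ * b / l + √(8 * hr a * C₈ * b ^ 4 * N) := by
    have h1 : Real.log (2 / m₁) / l ≤ C₇ * b / l := div_le_div_of_nonneg_right hlog1 hl0.le
    linarith
  have hterm1 : C₇ * b / l ≤ K / 2 * N := by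
    have h1 := hL₃ L (by omega)
    rw [← hbpow] at h1
    have h2 : 8 * H * C₇ * b ≤ K * 2 ^ L := by
      have h3 : 8 * H * C₇ / K * b * K = 8 * H * C₇ * b := by
        field_simp
      have h4 := mul_le_mul_of_nonneg_right h1.le hK.le
      rw [h3] at h4
      linarith
    calc C₇ * b / l = (8 * H * C₇ * b) * (1 / l) / (8 * H) := by
          field_simp
      _ ≤ (K * 2 ^ L) * (1 / l) / (8 * H) := by
          refine div_le_div_of_nonneg_right ?_ (by positivity)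
          exact mul_le_mul_of_nonneg_right h2 (by positivity)
      _ = K / 2 * (2 ^ L * (1 / l) / (4 * H)) := by
          field_simp
          ring
      _ ≤ K / 2 * N := mul_le_mul_of_nonneg_left hN2 (by positivity)
  have hterm2 : √(8 * hr a * C₈ * b ^ 4 * N) ≤ K / 2 * N := by
    refine Real.sqrt_le_iff.2 ⟨by positivity, ?_⟩
    have h1 := hL₄ L (by omega)
    rw [pow_mul, ← hbpow] at h1
    have h2 : 128 * H * hr a * C₈ * b ^ 4 ≤ K ^ 2 * 2 ^ L := by
      have h3 : 128 * H * hr a * C₈ / K ^ 2 * b ^ 4 * K ^ 2 = 128 * H * hr a * C₈ * b ^ 4 := by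
        field_simp
      have h4 := mul_le_mul_of_nonneg_right h1.le (by positivity : 0 ≤ K ^ 2)
      rw [h3] at h4
      linarith
    have h5 : 8 * hr a * C₈ * b ^ 4 ≤ K ^ 2 / 4 * N := by
      calc 8 * hr a * C₈ * b ^ 4 = (128 * H * hr a * C₈ * b ^ 4) / (16 * H) := by
            field_simp
            ring
        _ ≤ (K ^ 2 * 2 ^ L) / (16 * H) := div_le_div_of_nonneg_right h2 (by positivity)
        _ = K ^ 2 / 4 * (2 ^ L / (4 * H)) := by
            field_simp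
            ring
        _ ≤ K ^ 2 / 4 * N := mul_le_mul_of_nonneg_left hN1 (by positivity)
    calc 8 * hr a * C₈ * b ^ 4 * N ≤ K ^ 2 / 4 * N * N := mul_le_mul_of_nonneg_right h5 hN0
      _ = (K / 2 * N) ^ 2 := by ring
  have hgle : gq ≤ K * N := by
    have h1 := hp.gle (rv q)
    have h2 := hF.nrm.hi (rv q)
    rw [nr_rv] at h2
    exact h1.trans h2
  have hmc3 : mc P (X (bb m L)) S b 0 q ≤ 2 * K * N := by linarith
  have hcN : 1 / c ≤ N := by
    refine le_trans ?_ hN1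
    have h1 := hL₅ L (by omega)
    rw [pow_zero, mul_one] at h1
    rw [le_div_iff₀ (by positivity)]
    calc 1 / c * (4 * H) = 4 * H / c := by ring
      _ ≤ 2 ^ L := h1.le
  have hG := hgb (bb m L) S q l hb1b hSf hl0 hl1 hcN hmc3
  -- the upper bound of `Zc`
  have hZup : Real.log (Zc P (X (bb m L)) S b l 0 q) ≤ K₁ - l * gq := by
    have h1 : Zc P (X (bb m L)) S b l 0 q ≤ Real.exp (K₁ - l * gq) := by
      refine (Zc_le_Z hE le_rfl S hl0.le 0 q).trans ?_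
      have h2 : Z P (X (bb m L)) l 0 q * Real.exp (l * gq) * Real.exp (-(l * gq)) ≤
          Real.exp ((K₁ : ℝ) * 1) * Real.exp (-(l * gq)) :=
        mul_le_mul_of_nonneg_right hq5 (Real.exp_pos _).le
      rw [mul_assoc, ← Real.exp_add, ← Real.exp_add, add_neg_cancel, Real.exp_zero, mul_one,
        mul_one] at h2
      exact h2
    have h3 := Real.log_le_log (Zc_pos hE le_rfl S 0 q) h1
    rwa [Real.log_exp] at h3
  -- the main inequality
  have hNpos : 0 < N := by linarith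
  have hn0 : (0 : ℝ) < S.ncard := by linarith
  have hmain : c * (l * N) ^ 2 / S.ncard ≤
      C₇ * b + K₁ + l * √(8 * hr a * C₈ * b ^ 4 * N) := by
    have h1 : l * mc P (X (bb m L)) S b 0 q ≤
        l * (gq + C₇ * b / l + √(8 * hr a * C₈ * b ^ 4 * N)) :=
      mul_le_mul_of_nonneg_left hmc2 hl0.le
    have h2 : l * (gq + C₇ * b / l + √(8 * hr a * C₈ * b ^ 4 * N)) =
        l * gq + C₇ * b + l * √(8 * hr a * C₈ * b ^ 4 * N) := by
      field_simp
    rw [h2] at h1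
    linarith
  -- the number of edges
  have hW1 : 1 ≤ W := by
    rw [hW, le_div_iff₀ hl0]
    linarith
  have hKM1 : 1 ≤ (K₁ : ℝ) * M := one_le_mul_of_one_le_of_one_le hK1r hM1
  have hSb₀ : (S₀.ncard : ℝ) ≤ K₂ * (K₁ * M) * W ^ (d - 1) := hct W (K₁ * M) hW1 hKM1
  have hWp1 : 1 ≤ W ^ (d - 1) := one_le_pow₀ hW1
  have hSb : (S.ncard : ℝ) ≤ K₃ * (B₁ * W ^ (d - 1) * M) := by
    have h1 : K₂ * (K₁ * M) * W ^ (d - 1) ≤ K₂ * K₁ * (B₁ * W ^ (d - 1) * M) := by
      calc K₂ * (K₁ * M) * W ^ (d - 1) = K₂ * K₁ * (W ^ (d - 1) * M) * 1 := by ring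
        _ ≤ K₂ * K₁ * (W ^ (d - 1) * M) * B₁ :=
            mul_le_mul_of_nonneg_left hB₁1 (by positivity)
        _ = _ := by ring
    have h2 : N ≤ (2 * V + 1) * (B₁ * W ^ (d - 1) * M) := by
      refine hNup.trans ?_
      calc (2 * V + 1) * B₁ * M = (2 * V + 1) * (B₁ * M) * 1 := by ring
        _ ≤ (2 * V + 1) * (B₁ * M) * W ^ (d - 1) :=
            mul_le_mul_of_nonneg_left hWp1 (by positivity)
        _ = _ := by ring
    have h3 : K₃ * (B₁ * W ^ (d - 1) * M) =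
        K₂ * K₁ * (B₁ * W ^ (d - 1) * M) + (2 * V + 1) * (B₁ * W ^ (d - 1) * M) := by
      rw [hK₃]
      ring
    rw [h3]
    linarith
  have hld : l ^ (d + 1) = l ^ (d - 1) * l ^ 2 := by
    rw [← pow_add]
    congr 1
    omega
  have hBd : B₁ ^ d = B₁ ^ (d - 1) * B₁ := by
    rw [← pow_succ]
    congr 1
    omega
  have hlow : c * (l ^ (d + 1) * M) / (4 * H ^ 2 * K₃ * B₁ ^ d) ≤
      c * (l * N) ^ 2 / S.ncard := by
    have h1 : c * (l * (M / (2 * H))) ^ 2 / (K₃ * (B₁ * W ^ (d - 1) * M)) ≤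
        c * (l * N) ^ 2 / S.ncard := by
      refine div_le_div₀ (by positivity) ?_ hn0 hSb
      refine mul_le_mul_of_nonneg_left ?_ hc.le
      refine pow_le_pow_left₀ (by positivity) ?_ 2
      exact mul_le_mul_of_nonneg_left hNlow hl0.le
    refine le_trans (le_of_eq ?_) h1
    rw [hW, hBd, hld, div_pow]
    field_simp
    ring
  have hsq2 : √(8 * hr a * C₈ * b ^ 4 * N) ≤ C₁₀ * b ^ (4 + K₁) * √M := by
    have h1 : 8 * hr a * C₈ * b ^ 4 * N ≤ (C₁₀ * b ^ (4 + K₁) * √M) ^ 2 := by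
      rw [mul_pow, mul_pow, Real.sq_sqrt hM0.le, hC₁₀, Real.sq_sqrt (by positivity)]
      have h2 : b ^ (4 + K₁) ≤ (b ^ (4 + K₁)) ^ 2 :=
        le_self_pow₀ (one_le_pow₀ hb1) (by norm_num)
      calc 8 * hr a * C₈ * b ^ 4 * N ≤ 8 * hr a * C₈ * b ^ 4 * ((2 * V + 1) * B₁ * M) :=
            mul_le_mul_of_nonneg_left hNup (by positivity)
        _ = 8 * hr a * C₈ * (2 * V + 1) * M * b ^ (4 + K₁) := by
            rw [hB₁, pow_add]
            ring
        _ ≤ 8 * hr a * C₈ * (2 * V + 1) * M * (b ^ (4 + K₁)) ^ 2 :=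
            mul_le_mul_of_nonneg_left h2 (by positivity)
        _ = 8 * hr a * C₈ * (2 * V + 1) * (b ^ (4 + K₁)) ^ 2 * M := by ring
    exact Real.sqrt_le_iff.2 ⟨by positivity, h1⟩
  have hfin : l ^ (d + 1) * M ≤ A₀ * b ^ J * (1 + l * √M) := by
    have h1 := hlow.trans hmain
    have hD : 0 < 4 * H ^ 2 * K₃ * B₁ ^ d := by positivity
    rw [div_le_iff₀ hD] at h1
    have h2 : C₇ * b + K₁ + l * √(8 * hr a * C₈ * b ^ 4 * N) ≤
        (C₇ + K₁ + C₁₀) * b ^ (4 + K₁) * (1 + l * √M) := by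
      have h3 : b ≤ b ^ (4 + K₁) := le_self_pow₀ hb1 (by omega)
      have h4 : 1 ≤ b ^ (4 + K₁) := one_le_pow₀ hb1
      have h5 : l * √(8 * hr a * C₈ * b ^ 4 * N) ≤ l * (C₁₀ * b ^ (4 + K₁) * √M) :=
        mul_le_mul_of_nonneg_left hsq2 hl0.le
      have h6 : (C₇ + K₁ + C₁₀) * b ^ (4 + K₁) * (1 + l * √M) =
          C₇ * b ^ (4 + K₁) + K₁ * b ^ (4 + K₁) + C₁₀ * b ^ (4 + K₁) +
            (C₇ + K₁) * b ^ (4 + K₁) * (l * √M) + l * (C₁₀ * b ^ (4 + K₁) * √M) := by ring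
      rw [h6]
      have h7 : 0 ≤ (C₇ + K₁) * b ^ (4 + K₁) * (l * √M) := by positivity
      have h8 : 0 ≤ C₁₀ * b ^ (4 + K₁) := by positivity
      have h9 : C₇ * b ≤ C₇ * b ^ (4 + K₁) := mul_le_mul_of_nonneg_left h3 hC₇0.le
      have h10 : (K₁ : ℝ) ≤ K₁ * b ^ (4 + K₁) := le_mul_of_one_le_right (by positivity) h4
      linarith
    have h3 : c * (l ^ (d + 1) * M) ≤ (C₇ + K₁ + C₁₀) * b ^ (4 + K₁) * (1 + l * √M) *
        (4 * H ^ 2 * K₃ * B₁ ^ d) :=
      h1.trans (mul_le_mul_of_nonneg_right h2 hD.le)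
    have h4 : c * (A₀ * b ^ J * (1 + l * √M)) =
        (C₇ + K₁ + C₁₀) * b ^ (4 + K₁) * (1 + l * √M) * (4 * H ^ 2 * K₃ * B₁ ^ d) := by
      rw [hA₀, hJ, hB₁, ← pow_mul, pow_add b (K₁ * d) (4 + K₁)]
      field_simp
    rw [← h4] at h3
    exact le_of_mul_le_mul_left h3 hc
  have hlast := last_line d hl0 hl1 (by positivity : 0 ≤ A₀ * b ^ J) hMlow hM1 hfin
  have h8 : 8 * (A₀ * b ^ J) ^ 2 = 8 * A₀ ^ 2 * (L : ℝ) ^ ((m + 1) * (J * 2)) := by
    rw [hbpow, mul_pow, ← pow_mul, ← pow_mul]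
    ring
  rw [h8] at hlast
  have h9 := hL₂ L (by omega)
  linarith

end Pool.Agent.Helper33.GP
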